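import Pool.Agent.Q120.RC.Stm

/-!
# RC-MLO (project RC of helper120): the longest run is not short, for all these random sets
-/

set_option autoImplicit false

namespace Pool.Agent.Q177.RC

open Finset MeasureTheory Filter Pool.Agent.Q120.ET Pool.Agent.Q120.ME Pool.Agent.Q120.RC
open scoped Topology

theorem b0_nonneg {κ c : ℝ} (hc : 0 < c) (n : ℕ) : 0 ≤ b0 κ c n := by
  unfold b0
  exact div_nonneg (Real.rpow_nonneg (Real.log_natCast_nonneg n) _) hc.le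

theorem b0_mono {κ c : ℝ} (hκ : 0 < κ) (hc : 0 < c) {m n : ℕ} (hm : 1 ≤ m) (h : m ≤ n) :
    b0 κ c m ≤ b0 κ c n := by
  unfold b0
  have h1 : (0 : ℝ) < m := by exact_mod_cast hm
  have h2 : (m : ℝ) ≤ n := by exact_mod_cast h
  exact div_le_div_of_nonneg_right (Real.rpow_le_rpow (Real.log_natCast_nonneg m)
    (Real.log_le_log h1 h2) (by linarith)) hc.le

theorem step {κ c : ℝ} (hκ : 0 < κ) (hc : 0 < c) {ε : ℝ} (h0 : 0 < ε) (h1 : ε < 1) :
    ∀ᶠ k : ℕ in atTop, (1 - ε) * b0 κ c (2 ^ (k + 1)) ≤ (1 - ε / 2) * b0 κ c (2 ^ k) := by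
  have ht0 : Tendsto (fun k : ℕ => ((k : ℝ) + 1) / k) atTop (𝓝 1) := by
    have h2 : Tendsto (fun k : ℕ => 1 + 1 / (k : ℝ)) atTop (𝓝 (1 + 0)) :=
      tendsto_const_nhds.add tendsto_one_div_atTop_nhds_zero_nat
    rw [add_zero] at h2
    refine h2.congr' ?_
    filter_upwards [eventually_ge_atTop 1] with k hk
    have hk0 : (k : ℝ) ≠ 0 := by
      have : (1 : ℝ) ≤ k := by exact_mod_cast hk
      linarith
    field_simp
  have ht : Tendsto (fun k : ℕ => (((k : ℝ) + 1) / k) ^ (κ + 1)) atTop (𝓝 1) := by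
    have := ht0.rpow_const (p := κ + 1) (Or.inl one_ne_zero)
    rwa [Real.one_rpow] at this
  have hlt : (1 : ℝ) < (1 - ε / 2) / (1 - ε) := by
    rw [lt_div_iff₀ (by linarith)]
    linarith
  filter_upwards [ht.eventually (gt_mem_nhds hlt), eventually_ge_atTop 1] with k hk hk1
  have hk0 : (0 : ℝ) < k := by exact_mod_cast hk1
  have hl2 : (0 : ℝ) < Real.log 2 := Real.log_pos (by norm_num)
  have e1 : Real.log ((2 ^ (k + 1) : ℕ) : ℝ) = ((k : ℝ) + 1) * Real.log 2 := by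
    push_cast
    rw [Real.log_pow]
    push_cast
    ring
  have e2 : Real.log ((2 ^ k : ℕ) : ℝ) = (k : ℝ) * Real.log 2 := by
    push_cast
    rw [Real.log_pow]
  have e3 : (((k : ℝ) + 1) * Real.log 2) ^ (κ + 1) =
      (((k : ℝ) + 1) / k) ^ (κ + 1) * ((k : ℝ) * Real.log 2) ^ (κ + 1) := by
    rw [← Real.mul_rpow (by positivity) (by positivity)]
    congr 1
    field_simp
  unfold b0
  rw [e1, e2, e3]
  have hpos : (0 : ℝ) ≤ ((k : ℝ) * Real.log 2) ^ (κ + 1) / c := by positivity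
  have hk' : (1 - ε) * (((k : ℝ) + 1) / k) ^ (κ + 1) ≤ 1 - ε / 2 := by
    have h3 : (((k : ℝ) + 1) / k) ^ (κ + 1) ≤ (1 - ε / 2) / (1 - ε) := hk.le
    rw [le_div_iff₀ (by linarith)] at h3
    linarith
  calc (1 - ε) * ((((k : ℝ) + 1) / k) ^ (κ + 1) * ((k : ℝ) * Real.log 2) ^ (κ + 1) / c)
      = ((1 - ε) * (((k : ℝ) + 1) / k) ^ (κ + 1)) * (((k : ℝ) * Real.log 2) ^ (κ + 1) / c) := by ring
    _ ≤ (1 - ε / 2) * (((k : ℝ) * Real.log 2) ^ (κ + 1) / c) := mul_le_mul_of_nonneg_right hk' hpos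

theorem summable_bound {θ : ℝ} (hθ : 0 < θ) :
    Summable (fun k : ℕ => (Real.log ((2 ^ k : ℕ) : ℝ) ^ 2 + Real.log 2) / ((2 ^ k : ℕ) : ℝ) ^ θ) := by
  have hr : ‖((2 : ℝ) ^ (-θ))‖ < 1 := by
    rw [Real.norm_of_nonneg (by positivity)]
    exact Real.rpow_lt_one_of_one_lt_of_neg (by norm_num) (by linarith)
  have h1 := (summable_pow_mul_geometric_of_norm_lt_one 2 hr).mul_left (Real.log 2 ^ 2)
  have h2 := (summable_pow_mul_geometric_of_norm_lt_one 0 hr).mul_left (Real.log 2)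
  refine (h1.add h2).congr (fun k => ?_)
  have e2 : Real.log ((2 ^ k : ℕ) : ℝ) = (k : ℝ) * Real.log 2 := by
    push_cast
    rw [Real.log_pow]
  have e3 : (((2 ^ k : ℕ) : ℝ) ^ θ)⁻¹ = ((2 : ℝ) ^ (-θ)) ^ k := by
    push_cast
    rw [← Real.rpow_natCast 2 k, ← Real.rpow_mul (by norm_num), ← Real.rpow_natCast ((2 : ℝ) ^ (-θ)) k,
      ← Real.rpow_mul (by norm_num), ← Real.rpow_neg (by norm_num)]
    congr 1
    ring
  rw [div_eq_mul_inv, e3, e2]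
  ring

theorem t_MLO (hE : Pool.Agent.Q120.ME.J_EVT) (hL : J_LOWP) : J_MLO := by
  intro κ c p hκ hc hp Ω _ μ _ A hA hD ε hε
  by_cases hε1 : 1 ≤ ε
  · refine Eventually.of_forall (fun ω => Eventually.of_forall (fun n => ?_))
    have h1 := b0_nonneg (κ := κ) hc n
    have h2 : (1 - ε) * b0 κ c n ≤ 0 := mul_nonpos_of_nonpos_of_nonneg (by linarith) h1
    exact h2.trans (Nat.cast_nonneg _)
  rw [not_le] at hε1
  obtain ⟨θ, hθ, hθ2⟩ := hL κ c p hκ hc hp (ε / 2) (by linarith) (by linarith)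
  classical
  have hb : ∀ᶠ n : ℕ in atTop, μ.real {ω | (mx (A ω) n : ℝ) < (1 - ε / 2) * b0 κ c n} ≤
      (Real.log n ^ 2 + Real.log 2) / (n : ℝ) ^ θ := by
    filter_upwards [hθ2, hD, eventually_ge_atTop 1] with n h1 h2 h3
    have h4 := (hE p (range n) (fun j _ => ⟨hp.pos j, hp.lt_one j⟩) Ω μ A hA).2
      (fun T => (mx (T : Set ℕ) n : ℝ) < (1 - ε / 2) * b0 κ c n) ((n : ℝ) ^ θ) (by convert h1)
    have h5 : ∀ ω, mx ((tr A (range n) ω : Finset ℕ) : Set ℕ) n = mx (A ω) n :=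
      fun ω => mx_congr (fun j hj => by simp [mem_tr, hj])
    simp only [h5] at h4
    have hn : (0 : ℝ) < (n : ℝ) ^ θ := Real.rpow_pos_of_pos (by exact_mod_cast h3) _
    rw [le_div_iff₀ hn]
    linarith
  have htwo : Tendsto (fun k : ℕ => 2 ^ k) atTop atTop := tendsto_pow_atTop_atTop_of_one_lt one_lt_two
  have hb2 := htwo.eventually hb
  have hsum : Summable (fun k : ℕ => μ.real {ω | (mx (A ω) (2 ^ k) : ℝ) < (1 - ε / 2) * b0 κ c (2 ^ k)}) := by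
    refine Summable.of_norm_bounded_eventually_nat (summable_bound hθ) ?_
    filter_upwards [hb2] with k hk
    rw [Real.norm_of_nonneg measureReal_nonneg]
    exact hk
  have hne : ∑' k : ℕ, μ {ω | (mx (A ω) (2 ^ k) : ℝ) < (1 - ε / 2) * b0 κ c (2 ^ k)} ≠ ⊤ := by
    have h1 := hsum.tsum_ofReal_ne_top
    have h2 : ∀ k : ℕ, ENNReal.ofReal (μ.real {ω | (mx (A ω) (2 ^ k) : ℝ) < (1 - ε / 2) * b0 κ c (2 ^ k)}) =
        μ {ω | (mx (A ω) (2 ^ k) : ℝ) < (1 - ε / 2) * b0 κ c (2 ^ k)} :=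
      fun k => ofReal_measureReal (measure_ne_top _ _)
    rwa [tsum_congr h2] at h1
  filter_upwards [ae_eventually_notMem hne] with ω hω
  obtain ⟨k₀, hk₀⟩ := eventually_atTop.1 (hω.and (step hκ hc hε hε1))
  filter_upwards [eventually_ge_atTop (2 ^ k₀)] with n hn
  have hn0 : n ≠ 0 := by
    have : 0 < 2 ^ k₀ := by positivity
    omega
  have hk1 : k₀ ≤ Nat.log 2 n := Nat.le_log_of_pow_le one_lt_two hn
  obtain ⟨g1, g2⟩ := hk₀ (Nat.log 2 n) hk1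
  have h1 : 2 ^ Nat.log 2 n ≤ n := Nat.pow_log_le_self 2 hn0
  have h2 : n ≤ 2 ^ (Nat.log 2 n + 1) := (Nat.lt_pow_succ_log_self one_lt_two n).le
  have h3 : (1 - ε / 2) * b0 κ c (2 ^ Nat.log 2 n) ≤ mx (A ω) (2 ^ Nat.log 2 n) := not_lt.1 g1
  have h4 : mx (A ω) (2 ^ Nat.log 2 n) ≤ mx (A ω) n := mx_mono _ h1
  have h4' : (mx (A ω) (2 ^ Nat.log 2 n) : ℝ) ≤ mx (A ω) n := by exact_mod_cast h4
  have h5 : b0 κ c n ≤ b0 κ c (2 ^ (Nat.log 2 n + 1)) := b0_mono hκ hc (by omega) h2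
  calc (1 - ε) * b0 κ c n ≤ (1 - ε) * b0 κ c (2 ^ (Nat.log 2 n + 1)) :=
        mul_le_mul_of_nonneg_left h5 (by linarith)
    _ ≤ (1 - ε / 2) * b0 κ c (2 ^ Nat.log 2 n) := g2
    _ ≤ mx (A ω) (2 ^ Nat.log 2 n) := h3
    _ ≤ mx (A ω) n := h4'

end Pool.Agent.Q177.RC
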