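import Pool.Agent.Q120.RC.Stm

/-!
# RC-CRE (project RC of helper120): chain rule for the relative entropy of sequential laws
-/

set_option autoImplicit false

namespace Pool.Agent.Q177.RC

open Finset MeasureTheory Filter Pool.Agent.Q120.ET Pool.Agent.Q120.ME Pool.Agent.Q120.RC
open scoped Topology

theorem pre_eq {T : Finset ℕ} {N : ℕ} (hT : T ⊆ range N) : pre T N = T := by
  ext j
  rw [mem_pre]
  exact ⟨fun h => h.1, fun h => ⟨h, mem_range.1 (hT h)⟩⟩

theorem pre_insert {T : Finset ℕ} {N n : ℕ} (hn : n ≤ N) : pre (insert N T) n = pre T n := by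
  ext j
  rw [mem_pre, mem_pre, mem_insert]
  constructor
  · rintro ⟨h1 | h1, h2⟩
    · omega
    · exact ⟨h1, h2⟩
  · rintro ⟨h1, h2⟩
    exact ⟨Or.inr h1, h2⟩

theorem seqlaw_succ (r : ℕ → Finset ℕ → ℝ) {N : ℕ} {T : Finset ℕ} (hT : T ⊆ range N) :
    seqlaw r (N + 1) T = seqlaw r N T * (1 - r N T) := by
  have h1 : N ∉ T := fun h => by
    have := mem_range.1 (hT h)
    omega
  unfold seqlaw
  rw [prod_range_succ, if_neg h1, pre_eq hT]

theorem seqlaw_succ_insert (r : ℕ → Finset ℕ → ℝ) {N : ℕ} {T : Finset ℕ} (hT : T ⊆ range N) :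
    seqlaw r (N + 1) (insert N T) = seqlaw r N T * r N T := by
  unfold seqlaw
  rw [prod_range_succ, if_pos (mem_insert_self N T), pre_insert le_rfl, pre_eq hT]
  congr 1
  refine prod_congr rfl (fun n hn => ?_)
  have hn' := mem_range.1 hn
  rw [pre_insert hn'.le]
  have h1 : n ∈ insert N T ↔ n ∈ T := by
    rw [mem_insert]
    exact ⟨fun h => h.resolve_left (by omega), Or.inr⟩
  simp only [h1]

theorem log_id {a b ρ q : ℝ} (hb : 0 < b) (hq : 0 < q) (hq1 : q < 1) :
    a * (1 - ρ) * Real.log (a * (1 - ρ) / (b * (1 - q))) + a * ρ * Real.log (a * ρ / (b * q)) =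
      a * Real.log (a / b) + a * kl ρ q := by
  unfold kl
  rcases eq_or_ne a 0 with rfl | ha
  · simp
  have hab : a / b ≠ 0 := div_ne_zero ha hb.ne'
  have e1 : a * (1 - ρ) * Real.log (a * (1 - ρ) / (b * (1 - q))) =
      a * (1 - ρ) * (Real.log (a / b) + Real.log ((1 - ρ) / (1 - q))) := by
    rcases eq_or_ne (1 - ρ) 0 with h | h
    · rw [h]
      simp
    · have hq2 : (1 - q) ≠ 0 := by
        have : 0 < 1 - q := by linarith
        exact this.ne'
      rw [← Real.log_mul hab (div_ne_zero h hq2)]
      congr 2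
      rw [div_mul_div_comm]
  have e2 : a * ρ * Real.log (a * ρ / (b * q)) = a * ρ * (Real.log (a / b) + Real.log (ρ / q)) := by
    rcases eq_or_ne ρ 0 with h | h
    · rw [h]
      simp
    · rw [← Real.log_mul hab (div_ne_zero h hq.ne')]
      congr 2
      rw [div_mul_div_comm]
  rw [e1, e2]
  ring

theorem bern_pos {p : ℕ → ℝ} (hp : ∀ n, 0 < p n ∧ p n < 1) (N : ℕ) (T : Finset ℕ) : 0 < bern p (range N) T := by
  unfold bern
  refine prod_pos (fun n _ => ?_)
  split_ifs
  · exact (hp n).1
  · linarith [(hp n).2]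

theorem t_CRE : J_CRE := by
  intro r hr p hp N
  induction N with
  | zero =>
    simp [seqlaw, bern]
  | succ N ih =>
    have hN : N ∉ range N := by simp
    rw [range_add_one, sum_powerset_insert hN, sum_powerset_insert hN, ← sum_add_distrib, ← sum_add_distrib]
    rw [← range_add_one]
    have hL : ∀ T ∈ (range N).powerset,
        seqlaw r (N + 1) T * Real.log (seqlaw r (N + 1) T / bern p (range (N + 1)) T) +
          seqlaw r (N + 1) (insert N T) * Real.log (seqlaw r (N + 1) (insert N T) / bern p (range (N + 1)) (insert N T)) =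
        seqlaw r N T * Real.log (seqlaw r N T / bern p (range N) T) + seqlaw r N T * kl (r N T) (p N) := by
      intro T hT
      have hT' := mem_powerset.1 hT
      rw [← seqlaw_const p (N + 1) T, ← seqlaw_const p (N + 1) (insert N T), seqlaw_succ r hT', seqlaw_succ_insert r hT',
        seqlaw_succ (fun n _ => p n) hT', seqlaw_succ_insert (fun n _ => p n) hT', seqlaw_const p N T]
      exact log_id (bern_pos hp N T) (hp N).1 (hp N).2
    have hR : ∀ T ∈ (range N).powerset,
        seqlaw r (N + 1) T * ∑ n ∈ range (N + 1), kl (r n (pre T n)) (p n) +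
          seqlaw r (N + 1) (insert N T) * ∑ n ∈ range (N + 1), kl (r n (pre (insert N T) n)) (p n) =
        seqlaw r N T * ∑ n ∈ range N, kl (r n (pre T n)) (p n) + seqlaw r N T * kl (r N T) (p N) := by
      intro T hT
      have hT' := mem_powerset.1 hT
      have h1 : ∑ n ∈ range (N + 1), kl (r n (pre (insert N T) n)) (p n) = ∑ n ∈ range (N + 1), kl (r n (pre T n)) (p n) := by
        refine sum_congr rfl (fun n hn => ?_)
        rw [pre_insert (by have := mem_range.1 hn; omega)]
      rw [h1, seqlaw_succ r hT', seqlaw_succ_insert r hT', sum_range_succ, pre_eq hT']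
      ring
    rw [sum_congr rfl hL, sum_congr rfl hR, sum_add_distrib, sum_add_distrib, ih]

end Pool.Agent.Q177.RC
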